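import Mathlib

/-!
Shift spaces, suspension flows, cohomology of roof functions.
-/

namespace Pool.Agent.Lib.MP_49f1ce_an

/-- A shift space over the alphabet `A`: a nonempty closed subset of `A ^ ℤ` (product topology)
that is invariant under the left shift `(σ x) i = x (i + 1)` and its inverse. -/
structure ShiftSpace (A : Type) [TopologicalSpace A] where
  carrier : Set (ℤ → A)
  nonempty : carrier.Nonempty
  isClosed : IsClosed carrier
  shift_mem_iff : ∀ x : ℤ → A, (fun i => x (i + 1)) ∈ carrier ↔ x ∈ carrier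

variable {A : Type} [TopologicalSpace A]

/-- The left shift as a self-map of the shift space. -/
def ShiftSpace.shift (X : ShiftSpace A) (x : X.carrier) : X.carrier :=
  ⟨fun i => x.1 (i + 1), (X.shift_mem_iff x.1).2 x.2⟩

/-- Topological transitivity of the shift. -/
def ShiftSpace.IsTransitive (X : ShiftSpace A) : Prop :=
  ∀ U V : Set X.carrier, IsOpen U → IsOpen V → U.Nonempty → V.Nonempty →
    ∃ n : ℕ, 1 ≤ n ∧ (X.shift^[n] '' U ∩ V).Nonempty

/-- Topological mixing of the shift. -/
def ShiftSpace.IsMixing (X : ShiftSpace A) : Prop :=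
  ∀ U V : Set X.carrier, IsOpen U → IsOpen V → U.Nonempty → V.Nonempty →
    ∃ N : ℕ, ∀ n : ℕ, N ≤ n → (X.shift^[n] '' U ∩ V).Nonempty

/-- The suspension space under the roof `r`: the quotient (with the quotient topology) of
`X × ℝ` by the identifications `(x, s + r x) ∼ (σ x, s)`. -/
abbrev Suspension (X : ShiftSpace A) (r : X.carrier → ℝ) : Type :=
  Quot fun p q : X.carrier × ℝ => q.1 = X.shift p.1 ∧ p.2 = q.2 + r p.1

/-- The suspension flow at time `t`: the class of `(x, s)` goes to the class of `(x, s + t)`. -/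
def suspensionFlow (X : ShiftSpace A) (r : X.carrier → ℝ) (t : ℝ) :
    Suspension X r → Suspension X r :=
  Quot.map (fun p => (p.1, p.2 + t)) fun p q h => ⟨h.1, by have := h.2; simp only; linarith⟩

/-- Topological mixing of the suspension flow. -/
def IsMixingFlow (X : ShiftSpace A) (r : X.carrier → ℝ) : Prop :=
  ∀ U V : Set (Suspension X r), IsOpen U → IsOpen V → U.Nonempty → V.Nonempty →
    ∃ T : ℝ, ∀ t : ℝ, T ≤ t → (suspensionFlow X r t '' U ∩ V).Nonempty

/-- `f - g = h ∘ σ - h` for some continuous `h`. -/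
def Cohomologous (X : ShiftSpace A) (f g : X.carrier → ℝ) : Prop :=
  ∃ h : X.carrier → ℝ, Continuous h ∧ ∀ x, f x - g x = h (X.shift x) - h x

/-- `g x` depends only on the coordinates `x (-N), …, x N` for some `N`. -/
def DependsOnWindow (X : ShiftSpace A) (g : X.carrier → ℝ) : Prop :=
  ∃ N : ℕ, ∀ x y : X.carrier, (∀ i : ℤ, |i| ≤ N → x.1 i = y.1 i) → g x = g y

end Pool.Agent.Lib.MP_49f1ce_an
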