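import Pool.Agent.Lib.MP_49f1ce_an.Shift

/-!
The roof function, non-mixing of the suspension flow, and the cohomological obstruction.
-/

namespace Pool.Agent.Lib.MP_49f1ce_an

open Finset Filter Topology

/-- indicator of `true` -/
def ind (b : Bool) : ℝ := if b then 1 else 0

lemma ind_nonneg (b : Bool) : 0 ≤ ind b := by cases b <;> simp [ind]
lemma ind_le (b : Bool) : ind b ≤ 1 := by cases b <;> simp [ind]

/-- the summand -/
noncomputable def term (x : ℤ → Bool) (n : ℕ) : ℝ := (1 / 2) ^ (n + 2) * ind (x (n + 1))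

lemma term_nonneg (x : ℤ → Bool) (n : ℕ) : 0 ≤ term x n :=
  mul_nonneg (by positivity) (ind_nonneg _)

lemma term_le (x : ℤ → Bool) (n : ℕ) : term x n ≤ (1 / 2) ^ (n + 2) :=
  mul_le_of_le_one_right (by positivity) (ind_le _)

lemma hasSum_geo (c : ℕ) : HasSum (fun n : ℕ => (1 / 2 : ℝ) ^ (n + (c + 1))) ((1 / 2) ^ c) := by
  have := hasSum_geometric_two.mul_right ((1 / 2 : ℝ) ^ (c + 1))
  simp only [← pow_add] at this
  rwa [show (2 : ℝ) * (1 / 2) ^ (c + 1) = (1 / 2) ^ c by rw [pow_succ]; ring] at this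

lemma summable_term (x : ℤ → Bool) : Summable (term x) :=
  Summable.of_nonneg_of_le (term_nonneg x) (term_le x) (hasSum_geo 1).summable

/-- the perturbation -/
noncomputable def tail (x : ℤ → Bool) : ℝ := ∑' n, term x n

lemma tail_split (x : ℤ → Bool) (N : ℕ) :
    ∃ e : ℝ, 0 ≤ e ∧ e ≤ (1 / 2) ^ (N + 1) ∧ tail x = ∑ n ∈ range N, term x n + e := by
  refine ⟨∑' n, term x (n + N), tsum_nonneg fun n => term_nonneg _ _, ?_,
    ((summable_term x).sum_add_tsum_nat_add N).symm⟩
  rw [← (hasSum_geo (N + 1)).tsum_eq]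
  refine Summable.tsum_le_tsum (fun n => ?_) ((summable_nat_add_iff N).2 (summable_term x))
    (hasSum_geo (N + 1)).summable
  have := term_le x (n + N)
  rwa [add_assoc] at this

lemma tail_nonneg (x : ℤ → Bool) : 0 ≤ tail x := tsum_nonneg (term_nonneg x)

lemma tail_le (x : ℤ → Bool) : tail x ≤ 1 / 2 := by
  obtain ⟨e, _, h1, h2⟩ := tail_split x 0
  simp only [range_zero, sum_empty, zero_add, pow_one] at h1 h2
  linarith

lemma tail_close {x y : ℤ → Bool} {N : ℕ} (h : ∀ i : ℤ, |i| ≤ N → x i = y i) :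
    |tail x - tail y| ≤ (1 / 2) ^ N := by
  obtain ⟨e, e0, e1, e2⟩ := tail_split x N
  obtain ⟨e', e0', e1', e2'⟩ := tail_split y N
  have : ∑ n ∈ range N, term x n = ∑ n ∈ range N, term y n :=
    Finset.sum_congr rfl fun n hn => by
      rw [Finset.mem_range] at hn
      unfold term
      rw [h (n + 1) (by rw [abs_le]; omega)]
  have h2 : (1 / 2 : ℝ) ^ (N + 1) ≤ (1 / 2) ^ N := by
    rw [pow_succ]
    have : (0 : ℝ) ≤ (1 / 2) ^ N := by positivity
    linarith
  rw [e2, e2', this, abs_le]
  constructor <;> linarith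

lemma tail_ge {x : ℤ → Bool} {n : ℕ} (h : x (n + 1) = true) : (1 / 2) ^ (n + 2) ≤ tail x := by
  have := (summable_term x).le_tsum n fun j _ => term_nonneg x j
  simpa [term, h, ind, tail] using this

lemma tail_zero {x : ℤ → Bool} (h : ∀ n : ℕ, x (n + 1) = false) : tail x = 0 := by
  simp [tail, term, h, ind]

lemma continuous_tail : Continuous tail :=
  continuous_tsum (u := fun n : ℕ => (1 / 2 : ℝ) ^ (n + 2))
    (fun n => continuous_const.mul
      ((continuous_of_discreteTopology (f := ind)).comp (continuous_apply _)))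
    (hasSum_geo 1).summable
    (fun n x => by rw [Real.norm_of_nonneg (term_nonneg x n)]; exact term_le x n)

/-- the roof function on the full shift -/
noncomputable def R (x : ℤ → Bool) : ℝ := wt (x 0) + ind (x 0) * tail x

lemma continuous_R : Continuous R :=
  ((continuous_of_discreteTopology (f := fun b => (wt b : ℝ))).comp (continuous_apply 0)).add
    (((continuous_of_discreteTopology (f := ind)).comp (continuous_apply 0)).mul continuous_tail)

lemma R_ge (x : ℤ → Bool) : (wt (x 0) : ℝ) ≤ R x :=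
  le_add_of_nonneg_right (mul_nonneg (ind_nonneg _) (tail_nonneg _))

lemma R_le (x : ℤ → Bool) : R x ≤ 7 / 6 * (wt (x 0) : ℝ) := by
  have := tail_le x
  unfold R
  cases x 0 <;> simp [wt, ind] <;> linarith

lemma R_pos (x : ℤ → Bool) : 0 < R x := by
  have h1 := R_ge x
  have h2 : (1 : ℝ) ≤ wt (x 0) := by exact_mod_cast wt_ge (x 0)
  linarith

lemma R_false {x : ℤ → Bool} (h : x 0 = false) : R x = 1 := by simp [R, h, wt, ind]

lemma R_true {x : ℤ → Bool} (h : x 0 = true) : R x = 3 + tail x := by simp [R, h, wt, ind]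

lemma R_close {x y : ℤ → Bool} {N : ℕ} (h : ∀ i : ℤ, |i| ≤ N → x i = y i) :
    |R x - R y| ≤ (1 / 2) ^ N := by
  have h0 : x 0 = y 0 := h 0 (by simp)
  cases hy : y 0
  · rw [R_false (h0.trans hy), R_false hy]
    simp
  · rw [R_true (h0.trans hy), R_true hy]
    simpa using tail_close h

/-- Birkhoff sums at integer times -/
noncomputable def F (x : ℤ → Bool) (n : ℤ) : ℝ :=
  ∑ i ∈ Ico 0 n, R (T i x) - ∑ i ∈ Ico n 0, R (T i x)

lemma continuous_T (n : ℤ) : Continuous (T n) :=
  continuous_pi fun _ => continuous_apply _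

lemma continuous_F (n : ℤ) : Continuous fun x => F x n :=
  (continuous_finsetSum _ fun i _ => continuous_R.comp (continuous_T i)).sub
    (continuous_finsetSum _ fun i _ => continuous_R.comp (continuous_T i))

lemma Ico_succ_top {a b : ℤ} (h : a ≤ b) : Ico a (b + 1) = insert b (Ico a b) := by
  ext i; simp only [mem_Ico, mem_insert]; omega

lemma Ico_succ_bot {a b : ℤ} (h : a < b) : Ico a b = insert a (Ico (a + 1) b) := by
  ext i; simp only [mem_Ico, mem_insert]; omega

lemma F_succ (x : ℤ → Bool) (n : ℤ) : F x (n + 1) = F x n + R (T n x) := by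
  unfold F
  rcases le_or_gt 0 n with h | h
  · rw [Ico_succ_top h, sum_insert (by simp), Finset.Ico_eq_empty (a := n + 1) (by omega),
      Finset.Ico_eq_empty (a := n) (b := 0) (by omega)]
    simp only [sum_empty]
    ring
  · rw [Ico_succ_bot h, sum_insert (by simp), Finset.Ico_eq_empty (b := n + 1) (by omega),
      Finset.Ico_eq_empty (a := 0) (b := n) (by omega)]
    simp only [sum_empty]
    ring

lemma F_zero (x : ℤ → Bool) : F x 0 = 0 := by simp [F]

lemma F_T_one (x : ℤ → Bool) (n : ℤ) : F (T 1 x) n = F x (n + 1) - R x := by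
  induction n using Int.induction_on with
  | zero => rw [F_zero, F_succ, F_zero, T_zero]; ring
  | succ n ih => rw [F_succ, ih, F_succ x (n + 1), T_T]; ring
  | pred n ih =>
    have h1 := F_succ (T 1 x) (-n - 1)
    have h2 := F_succ x (-n - 1 + 1)
    rw [T_T] at h1
    rw [show (-n - 1 + 1 : ℤ) = -n by ring] at h1 h2 ⊢
    linarith

lemma F_bounds (x : ℤ → Bool) (p : ℤ) (m : ℕ) :
    (G x p (p + m) : ℝ) ≤ F x (p + m) - F x p ∧
      F x (p + m) - F x p ≤ 7 / 6 * (G x p (p + m) : ℝ) := by
  induction m with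
  | zero => simp [G]
  | succ m ih =>
    have e : p + ((m + 1 : ℕ) : ℤ) = p + m + 1 := by push_cast; ring
    have hG : G x p (p + m + 1) = G x p (p + m) + wt (x (p + m)) := by
      unfold G
      rw [Ico_succ_top (by omega), sum_insert (by simp), add_comm]
    have h1 := R_ge (T (p + m) x)
    have h2 := R_le (T (p + m) x)
    have h3 : T (p + m) x 0 = x (p + m) := by simp [T]
    rw [h3] at h1 h2
    rw [e, F_succ, hG]
    push_cast
    constructor <;> linarith [ih.1, ih.2]

/-- the roof function on the shift space -/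
noncomputable def roof (x : XS.carrier) : ℝ := R x.1

/-- the points of the suspension lying just above a marker -/
def Above (p : XS.carrier × ℝ) : Prop :=
  ∃ n : ℤ, Mk p.1.1 n ∧ 0 < p.2 - F p.1.1 n ∧ p.2 - F p.1.1 n < 1 / 2

lemma above_inv (p q : XS.carrier × ℝ) (h : q.1 = XS.shift p.1 ∧ p.2 = q.2 + roof p.1) :
    Above p = Above q := by
  obtain ⟨h1, h2⟩ := h
  have e : q.1.1 = T 1 p.1.1 := by rw [h1]; rfl
  unfold Above
  rw [e, h2]
  simp only [F_T_one, Mk_T, roof]
  ext
  constructor
  · rintro ⟨n, a, b, c⟩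
    refine ⟨n - 1, by simpa using a, ?_, ?_⟩ <;> rw [sub_add_cancel] <;> linarith
  · rintro ⟨n, a, b, c⟩
    exact ⟨n + 1, a, by linarith, by linarith⟩

lemma isOpen_above : IsOpen {p : XS.carrier × ℝ | Above p} := by
  have : {p : XS.carrier × ℝ | Above p} = ⋃ n : ℤ,
      ({p : XS.carrier × ℝ | p.1.1 n = true} ∩ {p | p.1.1 (n + 1) = false}) ∩
        ({p | 0 < p.2 - F p.1.1 n} ∩ {p | p.2 - F p.1.1 n < 1 / 2}) := by
    ext p
    simp [Above, Mk]
  rw [this]
  have c1 : Continuous fun p : XS.carrier × ℝ => p.1.1 := continuous_subtype_val.comp continuous_fst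
  have c2 : ∀ n : ℤ, Continuous fun p : XS.carrier × ℝ => p.2 - F p.1.1 n := fun n =>
    continuous_snd.sub ((continuous_F n).comp c1)
  refine isOpen_iUnion fun n => IsOpen.inter (IsOpen.inter ?_ ?_) (IsOpen.inter ?_ ?_)
  · exact (isOpen_discrete {true}).preimage ((continuous_apply n).comp c1)
  · exact (isOpen_discrete {false}).preimage ((continuous_apply (n + 1)).comp c1)
  · exact isOpen_lt continuous_const (c2 n)
  · exact isOpen_lt (c2 n) continuous_const

theorem not_mixing : ¬ IsMixingFlow XS roof := by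
  intro h
  let U : Set (Suspension XS roof) := {a | Quot.lift Above above_inv a}
  have hU : IsOpen U := isQuotientMap_quot_mk.isOpen_preimage.1 isOpen_above
  have hne : U.Nonempty := by
    refine ⟨Quot.mk _ (⟨step 0, step_mem 0⟩, 1 / 4), 0, ?_, ?_, ?_⟩
    · simp [Mk, step]
    · simp [F_zero]
    · simp only [F_zero]; norm_num
  obtain ⟨T0, hT⟩ := h U U hU hU hne hne
  obtain ⟨k, hk⟩ := exists_nat_ge (max T0 2)
  have hk1 : T0 ≤ k := (le_max_left _ _).trans hk
  have hk2 : (2 : ℝ) ≤ k := (le_max_right _ _).trans hk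
  have hM : (k : ℝ) < M k := by exact_mod_cast lt_M k
  obtain ⟨b, ⟨a, ha, rfl⟩, hb⟩ := hT (3 / 2 * M k) (by linarith)
  induction a using Quot.ind with
  | mk a =>
    obtain ⟨n, a1, a2, a3⟩ : Above a := ha
    obtain ⟨m, b1, b2, b3⟩ : Above (a.1, a.2 + 3 / 2 * M k) := hb
    simp only at b1 b2 b3
    rcases le_or_gt m n with hmn | hmn
    · obtain ⟨d, rfl⟩ : ∃ d : ℕ, n = m + d := ⟨(n - m).toNat, by omega⟩
      have h1 := (F_bounds a.1.1 m d).1
      have h2 : (0 : ℝ) ≤ G a.1.1 m (m + d) := by
        have := G_ge a.1.1 hmn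
        exact_mod_cast (by omega : (0 : ℤ) ≤ G a.1.1 m (m + d))
      linarith
    · obtain ⟨d, rfl⟩ : ∃ d : ℕ, m = n + d := ⟨(m - n).toNat, by omega⟩
      obtain ⟨h1, h2⟩ := F_bounds a.1.1 n d
      rcases a.1.2 n (n + d) hmn a1 b1 k with h3 | h3
      · have : (G a.1.1 n (n + d) : ℝ) < M k := by exact_mod_cast h3
        linarith
      · have : 2 * (M k : ℝ) ≤ G a.1.1 n (n + d) := by exact_mod_cast h3
        linarith

/-- translation on the shift space -/
def TX (n : ℤ) (x : XS.carrier) : XS.carrier := ⟨T n x.1, T_mem x.2 n⟩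

lemma shift_TX (n : ℤ) (x : XS.carrier) : XS.shift (TX n x) = TX (n + 1) x := by
  apply Subtype.ext
  funext i
  change x.1 (i + 1 + n) = x.1 (i + (n + 1))
  exact congrArg x.1 (by ring)

/-- the fixed point `false` -/
def oX : XS.carrier := ⟨fun _ => false, const_mem false⟩

/-- a single `true` -/
def yX : XS.carrier := ⟨fun i => decide (i = 0), by
  intro p q hpq hp hq
  have h1 := hp.1
  have h2 := hq.1
  simp only [decide_eq_true_eq] at h1 h2
  omega⟩

/-- `true` at the first multiples of `2 * M k` -/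
def zX (k : ℕ) : XS.carrier :=
  ⟨fun i => decide (∃ j : ℕ, j ≤ rep k (M k) ∧ i = j * (2 * M k : ℤ)), by
    intro p q hpq hp hq
    have h1 := hp.1
    have h2 := hq.1
    simp only [decide_eq_true_eq] at h1 h2
    obtain ⟨j1, a1, rfl⟩ := h1
    obtain ⟨j2, a2, rfl⟩ := h2
    have hM : (1 : ℤ) ≤ M k := by exact_mod_cast M_pos k
    have hj : (j1 : ℤ) < j2 := lt_of_mul_lt_mul_right hpq (by omega)
    have a2' : (j2 : ℤ) ≤ rep k (M k) := by exact_mod_cast a2
    have hj1 : (0 : ℤ) ≤ j1 := by positivity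
    refine ok_of_dist _ k (by nlinarith) ?_
    rw [M_succ]
    push_cast
    nlinarith⟩

lemma zX_window (k j : ℕ) (hj : j ≤ rep k (M k)) (v : ℤ) (h1 : -(2 * M k : ℤ) < v)
    (h2 : v < 2 * M k) : (zX k).1 (v + j * (2 * M k : ℤ)) = yX.1 v := by
  simp only [zX, yX, decide_eq_decide]
  constructor
  · rintro ⟨j', _, h⟩
    have e : v = ((j' : ℤ) - j) * (2 * M k : ℤ) := by linarith
    have hM : (1 : ℤ) ≤ M k := by exact_mod_cast M_pos k
    rcases lt_trichotomy (j' : ℤ) j with h' | h' | h'
    · nlinarith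
    · rw [e, h']; ring
    · nlinarith
  · rintro rfl
    exact ⟨j, hj, by ring⟩

lemma tendsto_TX_y (u : ℕ → ℤ) (hu : ∀ i : ℤ, ∀ᶠ n in atTop, i + u n ≠ 0) :
    Tendsto (fun n => TX (u n) yX) atTop (𝓝 oX) := by
  rw [tendsto_subtype_rng, tendsto_pi_nhds]
  intro i
  refine tendsto_const_nhds.congr' ((hu i).mono fun n hn => ?_)
  simp [TX, T, yX, oX, hn]

theorem not_cohomologous (g : XS.carrier → ℝ) (hg : DependsOnWindow XS g) :
    ¬ Cohomologous XS roof g := by
  rintro ⟨h, hc, hh⟩
  obtain ⟨N, hN⟩ := hg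
  have : CompactSpace XS.carrier := isCompact_iff_compactSpace.1 XS.isClosed.isCompact
  obtain ⟨B, hB⟩ : ∃ B : ℝ, ∀ x, |h x| ≤ B := by
    obtain ⟨B, hB⟩ := (isCompact_range hc.abs).bddAbove
    exact ⟨B, fun x => hB ⟨x, rfl⟩⟩
  have go : g oX = 1 := by
    have h1 := hh oX
    have h2 : XS.shift oX = oX := rfl
    have h3 : roof oX = 1 := R_false rfl
    rw [h2, h3] at h1
    linarith
  have stepy : ∀ i : ℤ, (N : ℤ) < |i| → h (TX (i + 1) yX) = h (TX i yX) := by
    intro i hi
    have h1 := hh (TX i yX)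
    have hi0 : i ≠ 0 := by rintro rfl; simp at hi; omega
    have h2 : roof (TX i yX) = 1 := R_false (by simp [TX, T, yX, hi0])
    have h3 : g (TX i yX) = g oX := hN _ _ fun a ha => by
      have : a + i ≠ 0 := by
        intro h0
        have : i = -a := by omega
        rw [this, abs_neg] at hi
        omega
      simp [TX, T, yX, oX, this]
    rw [shift_TX, h2, h3, go] at h1
    linarith
  have right : ∀ i : ℤ, (N : ℤ) < i → h (TX i yX) = h oX := by
    intro i hi
    have e : ∀ n : ℕ, h (TX (i + n) yX) = h (TX i yX) := by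
      intro n
      induction n with
      | zero => simp
      | succ n ih =>
        rw [← ih, ← stepy (i + n) (lt_abs.2 (Or.inl (by omega)))]
        congr 2
        push_cast
        ring
    have t := (hc.tendsto oX).comp (tendsto_TX_y (fun n => i + n) fun a => by
      filter_upwards [eventually_ge_atTop ((a + i).natAbs + 1)] with n hn
      omega)
    have : (h ∘ fun n : ℕ => TX (i + n) yX) = fun _ => h (TX i yX) := funext e
    rw [this] at t
    exact tendsto_nhds_unique tendsto_const_nhds t
  have left : h (TX (-N) yX) = h oX := by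
    have e : ∀ n : ℕ, h (TX (-N - n) yX) = h (TX (-N) yX) := by
      intro n
      induction n with
      | zero => simp
      | succ n ih =>
        rw [← ih, ← stepy (-N - ((n + 1 : ℕ) : ℤ)) (lt_abs.2 (Or.inr (by push_cast; omega)))]
        congr 2
        push_cast
        ring
    have t := (hc.tendsto oX).comp (tendsto_TX_y (fun n => -N - n) fun a => by
      filter_upwards [eventually_ge_atTop ((a - N).natAbs + 1)] with n hn
      omega)
    have : (h ∘ fun n : ℕ => TX (-N - n) yX) = fun _ => h (TX (-N) yX) := funext e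
    rw [this] at t
    exact tendsto_nhds_unique tendsto_const_nhds t
  obtain ⟨k, hk⟩ := exists_nat_gt (max (2 * B) N)
  have hkB : 2 * B < k := (le_max_left _ _).trans_lt hk
  have hkN : N < k := by exact_mod_cast (le_max_right _ _).trans_lt hk
  have hMk : k < M k := lt_M k
  set P : ℕ := 2 * M k with hP
  have tele : ∀ (x : XS.carrier) (c : ℤ), h (TX (c + P) x) - h (TX c x) =
      ∑ i ∈ range P, (roof (TX (c + i) x) - g (TX (c + i) x)) := by
    intro x c
    have := Finset.sum_range_sub (fun i : ℕ => h (TX (c + i) x)) P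
    simp only [Nat.cast_zero, add_zero] at this
    rw [← this]
    refine Finset.sum_congr rfl fun i _ => ?_
    rw [hh, shift_TX]
    congr 3
    push_cast
    ring
  have inc : ∀ j : ℕ, j < rep k (M k) →
      h (TX (-N + j * (P : ℤ)) (zX k)) + (1 / 2) ^ (P + 1) ≤
        h (TX (-N + (j + 1 : ℕ) * (P : ℤ)) (zX k)) := by
    intro j hj
    have t1 := tele (zX k) (-N + j * (P : ℤ))
    have t2 := tele yX (-N)
    rw [right _ (by omega), left, sub_self] at t2
    have hw : ∀ v : ℤ, -(P : ℤ) < v → v < P → (zX k).1 (v + j * (P : ℤ)) = yX.1 v := by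
      intro v h1 h2
      have := zX_window k j hj.le v (by omega) (by omega)
      rw [hP]
      push_cast
      exact this
    have cmp : ∑ i ∈ range P, ((roof (TX (-N + i) yX) - g (TX (-N + i) yX)) +
          if i = N then (1 / 2 : ℝ) ^ (P + 1) else 0) ≤
        ∑ i ∈ range P, (roof (TX (-N + j * (P : ℤ) + i) (zX k)) -
          g (TX (-N + j * (P : ℤ) + i) (zX k))) := by
      refine Finset.sum_le_sum fun i hi => ?_
      rw [Finset.mem_range] at hi
      have g1 : g (TX (-N + j * (P : ℤ) + i) (zX k)) = g (TX (-N + i) yX) := hN _ _ fun a ha => by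
        rw [abs_le] at ha
        have := hw (a + (-N + i)) (by omega) (by omega)
        simp only [TX, T]
        rw [← this]
        exact congrArg _ (by ring)
      rw [g1]
      have z0 : (TX (-N + j * (P : ℤ) + i) (zX k)).1 0 = yX.1 (-N + i) := by
        have := hw (-N + i) (by omega) (by omega)
        simp only [TX, T]
        rw [← this]
        exact congrArg _ (by ring)
      have y0 : (TX (-N + i) yX).1 0 = yX.1 (-N + i) := by simp [TX, T]
      split_ifs with hiN
      · subst hiN
        have yt : yX.1 (-(i : ℤ) + i) = true := by simp [yX]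
        have r1 : roof (TX (-(i : ℤ) + i) yX) = 3 := by
          unfold roof
          rw [R_true (y0.trans yt), tail_zero, add_zero]
          intro n
          simp only [TX, T, yX, decide_eq_false_iff_not]
          omega
        have r2 : 3 + (1 / 2) ^ (P + 1) ≤ roof (TX (-(i : ℤ) + j * (P : ℤ) + i) (zX k)) := by
          unfold roof
          rw [R_true (z0.trans yt)]
          have := tail_ge (x := (TX (-(i : ℤ) + j * (P : ℤ) + i) (zX k)).1) (n := P - 1) (by
            simp only [TX, T, zX, decide_eq_true_eq]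
            refine ⟨j + 1, hj, ?_⟩
            have : ((P - 1 : ℕ) : ℤ) = P - 1 := by omega
            rw [this, hP]
            push_cast
            ring)
          rw [show P - 1 + 2 = P + 1 by omega] at this
          linarith
        linarith
      · have yf : yX.1 (-N + i) = false := by
          simp only [yX, decide_eq_false_iff_not]
          omega
        unfold roof
        rw [R_false (y0.trans yf), R_false (z0.trans yf)]
        linarith
    rw [Finset.sum_add_distrib, ← t2, ← t1, Finset.sum_ite_eq', if_pos (by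
      rw [Finset.mem_range]; omega)] at cmp
    rw [show (-N + (j + 1 : ℕ) * (P : ℤ)) = -N + j * (P : ℤ) + P by push_cast; ring]
    linarith
  have acc : ∀ j : ℕ, j ≤ rep k (M k) →
      h (TX (-N + (0 : ℕ) * (P : ℤ)) (zX k)) + j * (1 / 2) ^ (P + 1) ≤
        h (TX (-N + j * (P : ℤ)) (zX k)) := by
    intro j
    induction j with
    | zero => simp
    | succ j ih =>
      intro hj
      have h1 := ih (by omega)
      have h2 := inc j (by omega)
      push_cast at h1 h2 ⊢
      linarith
  have fin := acc _ le_rfl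
  have e : (rep k (M k) : ℝ) * (1 / 2) ^ (P + 1) = k + 1 := by
    unfold rep
    rw [← hP]
    push_cast
    rw [mul_assoc, ← mul_pow]
    norm_num
  rw [e] at fin
  have b1 := abs_le.1 (hB (TX (-N + (0 : ℕ) * (P : ℤ)) (zX k)))
  have b2 := abs_le.1 (hB (TX (-N + (rep k (M k) : ℕ) * (P : ℤ)) (zX k)))
  linarith [b1.1, b2.2]

end Pool.Agent.Lib.MP_49f1ce_an
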