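import Pool.Agent.Lib.MP_49f1ce_an.Defs

/-!
The shift space: weighted distances between occurrences of the word `true false`
avoid the intervals `[M k, 2 * M k)`.
-/

namespace Pool.Agent.Lib.MP_49f1ce_an

open Finset

/-- repetition numbers -/
def rep (k m : ℕ) : ℕ := (k + 1) * 2 ^ (2 * m + 1)

/-- the scales -/
def M : ℕ → ℕ
  | 0 => 1
  | k + 1 => 6 * M k * rep k (M k) + 1

lemma M_pos (k : ℕ) : 1 ≤ M k := by
  cases k <;> simp [M]

lemma rep_ge (k : ℕ) : 8 ≤ rep k (M k) := by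
  have h := M_pos k
  have h1 : 2 ^ 3 ≤ 2 ^ (2 * M k + 1) := Nat.pow_le_pow_right (by norm_num) (by omega)
  unfold rep
  nlinarith

lemma M_succ (k : ℕ) : M (k + 1) = 6 * M k * rep k (M k) + 1 := rfl

lemma M_succ_ge (k : ℕ) : 48 * M k < M (k + 1) := by
  have := rep_ge k
  rw [M_succ]
  nlinarith

lemma M_mono : Monotone M := monotone_nat_of_le_succ fun k => by
  have := M_succ_ge k
  omega

lemma lt_M (k : ℕ) : k < M k := by
  induction k with
  | zero => simp [M]
  | succ k ih => have := M_succ_ge k; omega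

/-- the weight of a letter -/
def wt (b : Bool) : ℤ := if b then 3 else 1

lemma wt_ge (b : Bool) : 1 ≤ wt b := by cases b <;> simp [wt]
lemma wt_le (b : Bool) : wt b ≤ 3 := by cases b <;> simp [wt]

/-- weighted length of the segment `[p, q)` -/
noncomputable def G (x : ℤ → Bool) (p q : ℤ) : ℤ := ∑ i ∈ Ico p q, wt (x i)

lemma G_add (x : ℤ → Bool) {p q s : ℤ} (h1 : p ≤ q) (h2 : q ≤ s) :
    G x p s = G x p q + G x q s := by
  unfold G
  rw [← Finset.sum_union (Finset.Ico_disjoint_Ico_consecutive p q s),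
    Finset.Ico_union_Ico_eq_Ico h1 h2]

lemma G_ge (x : ℤ → Bool) {p q : ℤ} (h : p ≤ q) : q - p ≤ G x p q := by
  have : ∑ _i ∈ Ico p q, (1 : ℤ) ≤ G x p q := Finset.sum_le_sum fun i _ => wt_ge _
  simp only [sum_const, Int.card_Ico, nsmul_eq_mul, mul_one] at this
  omega

lemma G_le (x : ℤ → Bool) {p q : ℤ} (h : p ≤ q) : G x p q ≤ 3 * (q - p) := by
  have : G x p q ≤ ∑ _i ∈ Ico p q, (3 : ℤ) := Finset.sum_le_sum fun i _ => wt_le _
  simp only [sum_const, Int.card_Ico, nsmul_eq_mul] at this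
  omega

lemma G_false (x : ℤ → Bool) {p q : ℤ} (h : p ≤ q) (hx : ∀ i, p ≤ i → i < q → x i = false) :
    G x p q = q - p := by
  have : G x p q = ∑ _i ∈ Ico p q, (1 : ℤ) :=
    Finset.sum_congr rfl fun i hi => by
      rw [Finset.mem_Ico] at hi; simp [wt, hx i hi.1 hi.2]
  simp only [sum_const, Int.card_Ico, nsmul_eq_mul, mul_one] at this
  omega

lemma G_true (x : ℤ → Bool) {p q : ℤ} (h : p ≤ q) (hx : ∀ i, p ≤ i → i < q → x i = true) :
    G x p q = 3 * (q - p) := by
  have : G x p q = ∑ _i ∈ Ico p q, (3 : ℤ) :=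
    Finset.sum_congr rfl fun i hi => by
      rw [Finset.mem_Ico] at hi; simp [wt, hx i hi.1 hi.2]
  simp only [sum_const, Int.card_Ico, nsmul_eq_mul] at this
  omega

lemma G_congr {x y : ℤ → Bool} {p q : ℤ} (h : ∀ i, p ≤ i → i < q → x i = y i) :
    G x p q = G y p q :=
  Finset.sum_congr rfl fun i hi => by
    rw [Finset.mem_Ico] at hi; rw [h i hi.1 hi.2]

/-- translation by an integer -/
def T (n : ℤ) (x : ℤ → Bool) : ℤ → Bool := fun i => x (i + n)

lemma G_T (n : ℤ) (x : ℤ → Bool) (p q : ℤ) : G (T n x) p q = G x (p + n) (q + n) := by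
  unfold G T
  rw [← Finset.map_add_right_Ico, Finset.sum_map]
  rfl

/-- an occurrence of the word `true false` -/
def Mk (x : ℤ → Bool) (p : ℤ) : Prop := x p = true ∧ x (p + 1) = false

lemma Mk_T (n : ℤ) (x : ℤ → Bool) (p : ℤ) : Mk (T n x) p ↔ Mk x (p + n) := by
  unfold Mk T
  rw [show p + 1 + n = p + n + 1 by ring]

/-- allowed weighted distances -/
def Ok (d : ℤ) : Prop := ∀ k, d < M k ∨ 2 * (M k : ℤ) ≤ d

lemma ok_of_between {d : ℤ} (k : ℕ) (h1 : 2 * (M k : ℤ) ≤ d) (h2 : d < M (k + 1)) : Ok d := by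
  intro l
  rcases le_or_gt l k with h | h
  · right
    have : M l ≤ M k := M_mono h
    omega
  · left
    have : M (k + 1) ≤ M l := M_mono h
    omega

/-- the carrier -/
def XX : Set (ℤ → Bool) := {x | ∀ p q, p < q → Mk x p → Mk x q → Ok (G x p q)}

lemma T_mem {x : ℤ → Bool} (hx : x ∈ XX) (n : ℤ) : T n x ∈ XX := by
  intro p q hpq hp hq
  rw [G_T]
  exact hx _ _ (by omega) ((Mk_T _ _ _).1 hp) ((Mk_T _ _ _).1 hq)

lemma T_T (m n : ℤ) (x : ℤ → Bool) : T m (T n x) = T (m + n) x := by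
  funext i; simp [T, add_assoc]

lemma T_zero (x : ℤ → Bool) : T 0 x = x := by
  funext i; simp [T]

lemma isClosed_XX : IsClosed XX := by
  have : XX = ⋂ p : ℤ, ⋂ q : ℤ, {x | p < q → Mk x p → Mk x q → Ok (G x p q)} := by
    ext x; simp [XX]
  rw [this]
  refine isClosed_iInter fun p => isClosed_iInter fun q => ?_
  have hc : Continuous fun x : ℤ → Bool => (fun i : Icc p (q + 1) => x i) :=
    continuous_pi fun i => continuous_apply _
  by_cases hpq : p < q
  · let S : Set (Icc p (q + 1) → Bool) :=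
      (fun x : ℤ → Bool => (fun i : Icc p (q + 1) => x i)) ''
        {x | p < q → Mk x p → Mk x q → Ok (G x p q)}
    have hS : IsClosed S := isClosed_discrete S
    have : {x : ℤ → Bool | p < q → Mk x p → Mk x q → Ok (G x p q)} =
        (fun x : ℤ → Bool => (fun i : Icc p (q + 1) => x i)) ⁻¹' S := by
      ext x
      constructor
      · intro hx; exact ⟨x, hx, rfl⟩
      · rintro ⟨y, hy, hyx⟩
        have e : ∀ i, p ≤ i → i ≤ q + 1 → y i = x i := fun i h1 h2 =>
          congrFun hyx ⟨i, Finset.mem_Icc.2 ⟨h1, h2⟩⟩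
        intro _ hp hq
        rw [← G_congr (x := y) (y := x) fun i h1 h2 => e i h1 (by omega)]
        refine hy hpq ?_ ?_
        · exact ⟨by rw [e p le_rfl (by omega)]; exact hp.1,
            by rw [e (p + 1) (by omega) (by omega)]; exact hp.2⟩
        · exact ⟨by rw [e q (by omega) (by omega)]; exact hq.1,
            by rw [e (q + 1) (by omega) (by omega)]; exact hq.2⟩
    rw [this]
    exact hS.preimage hc
  · simp [hpq]

lemma const_mem (b : Bool) : (fun _ => b) ∈ XX := by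
  intro p q _ hp _
  cases b <;> simp [Mk] at hp

/-- the shift space -/
def XS : ShiftSpace Bool where
  carrier := XX
  nonempty := ⟨_, const_mem false⟩
  isClosed := isClosed_XX
  shift_mem_iff x := by
    constructor
    · intro h
      have := T_mem h (-1)
      have e : T (-1) (fun i => x (i + 1)) = x := by funext i; simp [T]
      rwa [e] at this
    · intro h
      exact T_mem h 1

lemma shift_iterate (n : ℕ) (x : XS.carrier) : (XS.shift^[n] x).1 = T n x.1 := by
  induction n with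
  | zero => simp [T_zero]
  | succ n ih =>
    rw [Function.iterate_succ_apply']
    funext i
    change (XS.shift^[n] x).1 (i + 1) = _
    rw [ih]
    simp only [T]
    exact congrArg x.1 (by push_cast; ring)

/-- gluing two points at position `s` -/
def glue (s : ℤ) (x y : ℤ → Bool) : ℤ → Bool := fun i => if i < s then x i else y i

lemma glue_lt {s i : ℤ} (x y : ℤ → Bool) (h : i < s) : glue s x y i = x i := by simp [glue, h]
lemma glue_ge {s i : ℤ} (x y : ℤ → Bool) (h : s ≤ i) : glue s x y i = y i := by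
  simp [glue, not_lt.2 h]

lemma Mk_glue {s : ℤ} {x y : ℤ → Bool} (hj : ¬ (x (s - 1) = true ∧ y s = false)) {p : ℤ}
    (hp : Mk (glue s x y) p) : (p + 1 < s ∧ Mk x p) ∨ (s ≤ p ∧ Mk y p) := by
  obtain ⟨h1, h2⟩ := hp
  rcases lt_trichotomy (p + 1) s with h | h | h
  · left
    rw [glue_lt _ _ (by omega)] at h1 h2
    exact ⟨h, h1, h2⟩
  · exfalso
    rw [glue_lt _ _ (by omega)] at h1
    rw [glue_ge _ _ (by omega)] at h2
    subst h
    exact hj ⟨by simpa using h1, h2⟩
  · right
    rw [glue_ge _ _ (by omega)] at h1 h2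
    exact ⟨by omega, h1, h2⟩

lemma glue_mem {s : ℤ} {x y : ℤ → Bool} (hx : x ∈ XX) (hy : y ∈ XX)
    (hj : ¬ (x (s - 1) = true ∧ y s = false))
    (hc : ∀ p q, p + 1 < s → s ≤ q → Mk x p → Mk y q → Ok (G (glue s x y) p q)) :
    glue s x y ∈ XX := by
  intro p q hpq hp hq
  rcases Mk_glue hj hp with ⟨h1, h2⟩ | ⟨h1, h2⟩ <;> rcases Mk_glue hj hq with ⟨h3, h4⟩ | ⟨h3, h4⟩
  · rw [G_congr (y := x) fun i _ _ => glue_lt _ _ (by omega)]
    exact hx p q hpq h2 h4
  · exact hc p q h1 h3 h2 h4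
  · omega
  · rw [G_congr (y := y) fun i _ _ => glue_ge _ _ (by omega)]
    exact hy p q hpq h2 h4

/-- the point with a single marker at `c` -/
def step (c : ℤ) : ℤ → Bool := fun i => decide (i ≤ c)

lemma Mk_step {c p : ℤ} (h : Mk (step c) p) : p = c := by
  simp only [Mk, step, decide_eq_true_eq, decide_eq_false_iff_not] at h
  omega

lemma step_mem (c : ℤ) : step c ∈ XX := by
  intro p q hpq hp hq
  have := Mk_step hp
  have := Mk_step hq
  omega

lemma ok_of_dist (z : ℤ → Bool) {p q : ℤ} (k : ℕ) (h1 : 2 * (M k : ℤ) ≤ q - p)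
    (h2 : 3 * (q - p) < M (k + 1)) : Ok (G z p q) := by
  have hpq : p ≤ q := by omega
  have := G_ge z hpq
  have := G_le z hpq
  exact ok_of_between k (by omega) (by omega)

lemma left_piece {x : ℤ → Bool} (hx : x ∈ XX) (N : ℕ) :
    ∃ x' ∈ XX, ∃ L : ℕ, N ≤ L ∧ (∀ i : ℤ, |i| ≤ N → x' i = x i) ∧
      (∀ i : ℤ, L ≤ i → x' i = false) ∧ ∀ p, Mk x' p → -(L : ℤ) ≤ p ∧ p ≤ L := by
  set K := 2 * N + 1 with hK
  have hMK : K < M K := lt_M K
  have hM1 := M_succ_ge K
  let x1 := glue (-N) (fun _ => x (-N)) x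
  have j1 : ¬ ((fun _ : ℤ => x (-N)) (-N - 1) = true ∧ x (-N) = false) := by simp
  have h1 : x1 ∈ XX := glue_mem (const_mem _) hx j1 fun p q _ _ hp _ => by
    cases h : x (-N) <;> simp [Mk, h] at hp
  have m1 : ∀ p, Mk x1 p → -(N : ℤ) ≤ p := fun p hp => by
    rcases Mk_glue j1 hp with ⟨_, h⟩ | ⟨h, _⟩
    · cases h' : x (-N) <;> simp [Mk, h'] at h
    · exact h
  let c : ℤ := N + 2 * M K
  have j2 : ¬ (x1 (N + 1 - 1) = true ∧ step c (N + 1) = false) := by
    simp only [step, decide_eq_false_iff_not, not_and, not_not]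
    intro _
    omega
  refine ⟨glue (N + 1) x1 (step c), ?_, N + 2 * M K + 1, by omega, ?_, ?_, ?_⟩
  · refine glue_mem h1 (step_mem c) j2 fun p q hp _ hmp hmq => ?_
    have := m1 p hmp
    have := Mk_step hmq
    exact ok_of_dist _ K (by omega) (by omega)
  · intro i hi
    rw [abs_le] at hi
    rw [glue_lt _ _ (by omega)]
    exact glue_ge _ _ (by omega)
  · intro i hi
    push_cast at hi
    rw [glue_ge _ _ (by omega)]
    simp only [step, decide_eq_false_iff_not]
    omega
  · intro p hp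
    push_cast
    rcases Mk_glue j2 hp with ⟨h, h'⟩ | ⟨h, h'⟩
    · have := m1 p h'
      omega
    · have := Mk_step h'
      omega

lemma right_piece {y : ℤ → Bool} (hy : y ∈ XX) (N : ℕ) :
    ∃ y' ∈ XX, ∃ L : ℕ, N ≤ L ∧ (∀ i : ℤ, |i| ≤ N → y' i = y i) ∧
      (∀ i : ℤ, i ≤ -(L : ℤ) → y' i = true) ∧ ∀ p, Mk y' p → -(L : ℤ) ≤ p ∧ p ≤ L := by
  set K := 2 * N + 1 with hK
  have hMK : K < M K := lt_M K
  have hM1 := M_succ_ge K
  let y1 := glue (N + 1) y (fun _ => y N)
  have j1 : ¬ (y (N + 1 - 1) = true ∧ (fun _ : ℤ => y N) (N + 1) = false) := by simp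
  have h1 : y1 ∈ XX := glue_mem hy (const_mem _) j1 fun p q _ _ _ hq => by
    cases h : y N <;> simp [Mk, h] at hq
  have m1 : ∀ p, Mk y1 p → p < N := fun p hp => by
    rcases Mk_glue j1 hp with ⟨h, _⟩ | ⟨_, h⟩
    · omega
    · cases h' : y N <;> simp [Mk, h'] at h
  let c : ℤ := -N - 2 * M K
  have j2 : ¬ (step c (-N - 1) = true ∧ y1 (-N) = false) := by
    simp only [step, decide_eq_true_eq, not_and]
    intro _
    omega
  refine ⟨glue (-N) (step c) y1, ?_, N + 2 * M K, by omega, ?_, ?_, ?_⟩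
  · refine glue_mem (step_mem c) h1 j2 fun p q _ hq hmp hmq => ?_
    have := m1 q hmq
    have := Mk_step hmp
    exact ok_of_dist _ K (by omega) (by omega)
  · intro i hi
    rw [abs_le] at hi
    rw [glue_ge _ _ (by omega)]
    exact glue_lt _ _ (by omega)
  · intro i hi
    push_cast at hi
    rw [glue_lt _ _ (by omega)]
    simp only [step, decide_eq_true_eq]
    omega
  · intro p hp
    push_cast
    rcases Mk_glue j2 hp with ⟨h, h'⟩ | ⟨h, h'⟩
    · have := Mk_step h'
      omega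
    · have := m1 p h'
      omega

lemma choose_j (C n : ℤ) (hC : 0 ≤ C) (hn : 2 * C + 2 ≤ n) :
    ∃ j : ℤ, 0 ≤ j ∧ j ≤ n ∧ ∀ e, 0 ≤ e → e ≤ C → Ok (n + 2 * j + e) := by
  by_cases h : ∀ e, 0 ≤ e → e ≤ C → Ok (n + 2 * 0 + e)
  · exact ⟨0, le_rfl, by omega, h⟩
  · simp only [Ok, not_forall, not_or, not_lt, not_le] at h
    obtain ⟨e, he0, heC, k, h1, h2⟩ := h
    have hM1 := M_succ_ge k
    refine ⟨M k - n / 2, by omega, by omega, fun e' h0 h' => ?_⟩
    exact ok_of_between k (by omega) (by omega)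

lemma connect {x y : ℤ → Bool} (hx : x ∈ XX) (hy : y ∈ XX) (N : ℕ) :
    ∃ n0 : ℕ, ∀ n : ℕ, n0 ≤ n → ∃ z ∈ XX, (∀ i : ℤ, |i| ≤ N → z i = x i) ∧
      ∀ i : ℤ, |i| ≤ N → z (i + n) = y i := by
  obtain ⟨x', hx', L1, hL1, ax, fx, mx⟩ := left_piece hx N
  obtain ⟨y', hy', L2, hL2, ay, fy, my⟩ := right_piece hy N
  refine ⟨13 * (L1 + L2) + 20, fun n hn => ?_⟩
  obtain ⟨j, hj0, hjn, hj⟩ := choose_j (6 * (L1 + L2) + 3) (n - L2 - L1 - 1) (by omega) (by omega)
  set s : ℤ := n - L2 - j with hs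
  have jn : ¬ (x' (s - 1) = true ∧ T (-n) y' s = false) := by
    rw [fx (s - 1) (by omega)]
    simp
  refine ⟨glue s x' (T (-n) y'), ?_, ?_, ?_⟩
  · refine glue_mem hx' (T_mem hy' _) jn fun p q hp hq hmp hmq => ?_
    have b1 := mx p hmp
    have b2 := my _ ((Mk_T _ _ _).1 hmq)
    set z := glue s x' (T (-n) y') with hz
    have e1 : G z p q = G z p (L1 + 1) + (G z (L1 + 1) s + (G z s (n - L2) + G z (n - L2) q)) := by
      rw [G_add z (p := p) (q := L1 + 1) (s := q) (by omega) (by omega),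
        G_add z (p := L1 + 1) (q := s) (s := q) (by omega) (by omega),
        G_add z (p := s) (q := n - L2) (s := q) (by omega) (by omega)]
    have e2 : G z (L1 + 1) s = s - (L1 + 1) :=
      G_false z (by omega) fun i h1 h2 => by
        rw [hz, glue_lt _ _ h2]; exact fx i (by omega)
    have e3 : G z s (n - L2) = 3 * (n - L2 - s) :=
      G_true z (by omega) fun i h1 h2 => by
        rw [hz, glue_ge _ _ h1]; exact fy _ (by omega)
    have e4 := G_ge z (p := p) (q := L1 + 1) (by omega)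
    have e5 := G_le z (p := p) (q := L1 + 1) (by omega)
    have e6 := G_ge z (p := n - L2) (q := q) (by omega)
    have e7 := G_le z (p := n - L2) (q := q) (by omega)
    have := hj (G z p (L1 + 1) + G z (n - L2) q) (by omega) (by omega)
    convert this using 1
    omega
  · intro i hi
    have := abs_le.1 hi
    rw [glue_lt _ _ (by omega)]
    exact ax i hi
  · intro i hi
    have := abs_le.1 hi
    rw [glue_ge _ _ (by omega)]
    simp only [T, add_neg_cancel_right]
    exact ay i hi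

lemma exists_window {U : Set XS.carrier} (hU : IsOpen U) {x : XS.carrier} (hx : x ∈ U) :
    ∃ N : ℕ, ∀ z : XS.carrier, (∀ i : ℤ, |i| ≤ N → z.1 i = x.1 i) → z ∈ U := by
  obtain ⟨W, hW, rfl⟩ := isOpen_induced_iff.1 hU
  obtain ⟨I, u, hu, hI⟩ := isOpen_pi_iff.1 hW x.1 hx
  obtain ⟨N, hN⟩ : ∃ N : ℕ, ∀ i ∈ I, |i| ≤ N := by
    refine ⟨I.sup fun i => i.natAbs, fun i hi => ?_⟩
    have : i.natAbs ≤ I.sup fun i => i.natAbs := Finset.le_sup (f := fun i : ℤ => i.natAbs) hi
    rw [Int.abs_eq_natAbs]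
    exact_mod_cast this
  refine ⟨N, fun z hz => hI fun i hi => ?_⟩
  rw [hz i (hN i hi)]
  exact (hu i hi).2

theorem XS_mixing : XS.IsMixing := by
  rintro U V hU hV ⟨x, hx⟩ ⟨y, hy⟩
  obtain ⟨N1, h1⟩ := exists_window hU hx
  obtain ⟨N2, h2⟩ := exists_window hV hy
  obtain ⟨n0, hn0⟩ := connect x.2 y.2 (N1 + N2)
  refine ⟨n0, fun n hn => ?_⟩
  obtain ⟨z, hz, a1, a2⟩ := hn0 n hn
  refine ⟨XS.shift^[n] ⟨z, hz⟩, ⟨⟨z, hz⟩, h1 _ fun i hi => a1 i (by push_cast; omega), rfl⟩,
    h2 _ fun i hi => ?_⟩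
  rw [shift_iterate]
  exact a2 i (by push_cast; omega)

theorem XS_transitive : XS.IsTransitive := by
  intro U V hU hV h1 h2
  obtain ⟨N, hN⟩ := XS_mixing U V hU hV h1 h2
  exact ⟨N + 1, by omega, hN _ (by omega)⟩

lemma periodic_const {x : ℤ → Bool} (hx : x ∈ XX) {n : ℕ} (hn : 0 < n) (hp : T n x = x) :
    x = (fun _ => false) ∨ x = fun _ => true := by
  have per : ∀ i, x (i + n) = x i := fun i => congrFun hp i
  have per' : ∀ (j : ℕ) (i : ℤ), x (i + j * n) = x i := by
    intro j i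
    induction j with
    | zero => simp
    | succ j ih => rw [← ih, ← per (i + j * n)]; congr 1; push_cast; ring
  have nomk : ∀ p, ¬ Mk x p := by
    intro p hmk
    have hM : 3 * n < M (3 * n) := lt_M _
    set K := 3 * n
    have mk' : ∀ j : ℕ, Mk x (p + j * n) := fun j =>
      ⟨by rw [per']; exact hmk.1, by
        rw [show p + j * n + 1 = p + 1 + j * n by ring, per']; exact hmk.2⟩
    have key : ∀ j : ℕ, G x p (p + j * n) < M K := by
      intro j
      induction j with
      | zero => simp only [Nat.cast_zero, zero_mul, add_zero, G, Ico_self, sum_empty]; omega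
      | succ j ih =>
        have hjn : (0 : ℤ) ≤ j * n := by positivity
        have e : p + ((j + 1 : ℕ) : ℤ) * n = p + j * n + n := by push_cast; ring
        have h1 := hx p _ (by rw [e]; omega) hmk (mk' (j + 1)) K
        rw [e] at h1 ⊢
        rw [G_add x (p := p) (q := p + j * n) (s := p + j * n + n) (by omega) (by omega)] at h1 ⊢
        have := G_le x (p := p + j * n) (q := p + j * n + n) (by omega)
        omega
    have h1 := key (M K)
    have h2 : (M K : ℤ) ≤ (M K : ℤ) * n := le_mul_of_one_le_right (by positivity) (by omega)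
    have h3 := G_ge x (p := p) (q := p + (M K : ℤ) * n) (by omega)
    omega
  by_cases h : ∃ i, x i = true
  · right
    obtain ⟨i, hi⟩ := h
    have up : ∀ m : ℕ, x (i + m) = true := by
      intro m
      induction m with
      | zero => simpa using hi
      | succ m ih =>
        by_contra hc
        refine nomk (i + m) ⟨ih, ?_⟩
        rw [show i + m + 1 = i + ((m + 1 : ℕ) : ℤ) by push_cast; ring]
        simpa using hc
    funext a
    have h2 : ((i - a).natAbs : ℤ) ≤ ((i - a).natAbs : ℤ) * n :=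
      le_mul_of_one_le_right (by positivity) (by omega)
    obtain ⟨m, hm⟩ : ∃ m : ℕ, a + ((i - a).natAbs : ℕ) * (n : ℤ) = i + m :=
      ⟨(a + ((i - a).natAbs : ℕ) * (n : ℤ) - i).toNat, by omega⟩
    rw [← per' (i - a).natAbs a, hm]
    exact up m
  · left
    funext a
    simpa using fun h' => h ⟨a, h'⟩

theorem periodicPts_XS : Function.periodicPts XS.shift =
    {⟨fun _ => false, const_mem false⟩, ⟨fun _ => true, const_mem true⟩} := by
  ext x
  constructor
  · rintro ⟨n, hn, hx⟩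
    have : T n x.1 = x.1 := by rw [← shift_iterate]; exact congrArg Subtype.val hx
    rcases periodic_const x.2 hn this with h | h
    · left; exact Subtype.ext h
    · right; exact Subtype.ext h
  · rintro (rfl | rfl) <;> exact ⟨1, one_pos, rfl⟩

end Pool.Agent.Lib.MP_49f1ce_an
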